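import Pool.Agent.Helper12.AD.Stmts

set_option autoImplicit false

open scoped MeasureTheory ENNReal
open Complex

noncomputable section

namespace Pool.Agent.Helper78.AD

theorem e_per (θ : ℝ) : AX.e (θ + 2 * Real.pi) = AX.e θ := by
  unfold AX.e
  have h : (((θ + 2 * Real.pi : ℝ) : ℂ)) * I = (θ : ℂ) * I + 2 * (Real.pi : ℂ) * I := by
    push_cast; ring
  rw [h, Complex.exp_add, Complex.exp_two_pi_mul_I, mul_one]

theorem h_per (S : Set ℂ) : Function.Periodic (AD.h S) (2 * Real.pi) := by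
  intro θ
  unfold AD.h
  rw [e_per]

theorem T_per {n : ℕ} (r : ℝ) (c : Fin n → ℂ) (i : Fin n) (θ : ℝ) (h : θ ∈ AX.T r c i) :
    θ + 2 * Real.pi ∈ AX.T r c i := by
  unfold AX.T at h ⊢
  show c i + (r : ℂ) * AX.e (θ + 2 * Real.pi) ∈ AX.K r c
  rw [e_per]
  exact h

theorem K_compact {n : ℕ} (r : ℝ) (c : Fin (n + 1) → ℂ) : IsCompact (AX.K r c) := by
  unfold AX.K
  have h0 : IsCompact (Metric.closedBall (c 0) r) := isCompact_closedBall _ _
  exact h0.of_isClosed_subset (isClosed_iInter fun i => Metric.isClosed_closedBall)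
    (Set.iInter_subset _ 0)

theorem K_ne_of_T {n : ℕ} (r : ℝ) (c : Fin n → ℂ) (i : Fin n) (h : (AX.T r c i).Nonempty) :
    (AX.K r c).Nonempty := by
  obtain ⟨θ, hθ⟩ := h
  exact ⟨_, hθ⟩

end Pool.Agent.Helper78.AD

open Pool.Agent.Helper78.AD in
theorem AD.st_CA1 (hHULL : AX.ST_HULL) (hPER : AX.ST_PER) (hIAR : AD.ST_IAR) (hHCT : AD.ST_HCT) :
    AD.ST_CA1 := by
  intro n r c hr hinj hT
  obtain ⟨σ, a, b, hab, hTI, hgap, hlast⟩ := hHULL n r c hr hinj hT
  have hKc : IsCompact (AX.K r c) := K_compact r c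
  have hKn : (AX.K r c).Nonempty := K_ne_of_T r c 0 (hT 0)
  have hcont : Continuous (AD.h (AX.K r c)) := hHCT _ hKc hKn
  have hint : ∀ x y : ℝ, IntervalIntegrable (AD.h (AX.K r c)) MeasureTheory.volume x y :=
    fun x y => hcont.intervalIntegrable x y
  -- the sum of the arcs
  have hIcc : ∀ k, Set.Icc (a k) (b k) ⊆ AX.T r c (σ k) := by
    intro k x hx
    rw [← hTI k] at hx
    exact hx.1
  have hmemT : ∀ k, a k ∈ AX.T r c (σ k) := fun k => hIcc k ⟨le_refl _, hab k⟩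
  let F : Fin (n + 2) → ℝ → ℝ := fun i x => (c i * (starRingEnd ℂ) (-I * AX.e x)).re
  let G : Fin (n + 2) → ℝ := fun k => (∫ θ in (a 0)..(a k), AD.h (AX.K r c) θ) - F (σ k) (a k)
  have hstep : ∀ k : Fin (n + 1), G k.succ - G k.castSucc = r * (b k.castSucc - a k.castSucc) := by
    intro k
    have h1 := hIAR (n + 1) r c (σ k.castSucc) (σ k.succ) (a k.castSucc) (b k.castSucc) hr
      (hab _) (hIcc _) (by rw [hgap k]; exact hmemT _)
    rw [hgap k] at h1
    have h2 : (∫ θ in (a 0)..(a k.succ), AD.h (AX.K r c) θ) -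
        (∫ θ in (a 0)..(a k.castSucc), AD.h (AX.K r c) θ) =
        ∫ θ in (a k.castSucc)..(a k.succ), AD.h (AX.K r c) θ :=
      intervalIntegral.integral_interval_sub_left (hint _ _) (hint _ _)
    simp only [G, F]
    linarith
  have hlst : (∫ θ in (a (Fin.last (n + 1)))..(a 0 + 2 * Real.pi), AD.h (AX.K r c) θ) =
      r * (b (Fin.last (n + 1)) - a (Fin.last (n + 1))) + F (σ 0) (a 0 + 2 * Real.pi) -
        F (σ (Fin.last (n + 1))) (a (Fin.last (n + 1))) := by
    have h1 := hIAR (n + 1) r c (σ (Fin.last (n + 1))) (σ 0) (a (Fin.last (n + 1)))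
      (b (Fin.last (n + 1))) hr (hab _) (hIcc _) (by rw [hlast]; exact T_per r c _ _ (hmemT 0))
    rw [hlast] at h1
    exact h1
  have hF0 : F (σ 0) (a 0 + 2 * Real.pi) = F (σ 0) (a 0) := by
    simp only [F, e_per]
  have htel : ∑ k : Fin (n + 1), (G k.succ - G k.castSucc) = G (Fin.last (n + 1)) - G 0 := by
    rw [Finset.sum_sub_distrib]
    have e1 : ∑ k : Fin (n + 2), G k = G 0 + ∑ k : Fin (n + 1), G k.succ := Fin.sum_univ_succ _
    have e2 : ∑ k : Fin (n + 2), G k = ∑ k : Fin (n + 1), G k.castSucc + G (Fin.last (n + 1)) :=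
      Fin.sum_univ_castSucc _
    linarith
  have hG0 : G 0 = - F (σ 0) (a 0) := by
    simp only [G, intervalIntegral.integral_same, zero_sub]
  have hadd : (∫ θ in (a 0)..(a (Fin.last (n + 1))), AD.h (AX.K r c) θ) +
      (∫ θ in (a (Fin.last (n + 1)))..(a 0 + 2 * Real.pi), AD.h (AX.K r c) θ) =
      ∫ θ in (a 0)..(a 0 + 2 * Real.pi), AD.h (AX.K r c) θ :=
    intervalIntegral.integral_add_adjacent_intervals (hint _ _) (hint _ _)
  have hsum : ∑ k : Fin (n + 2), r * (b k - a k) =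
      ∫ θ in (0 : ℝ)..(2 * Real.pi), AD.h (AX.K r c) θ := by
    rw [Fin.sum_univ_castSucc]
    have h3 : ∑ k : Fin (n + 1), r * (b k.castSucc - a k.castSucc) =
        G (Fin.last (n + 1)) - G 0 := by
      rw [← htel]
      exact Finset.sum_congr rfl fun k _ => (hstep k).symm
    have h4 : (∫ θ in (0 : ℝ)..(2 * Real.pi), AD.h (AX.K r c) θ) =
        ∫ θ in (a 0)..(a 0 + 2 * Real.pi), AD.h (AX.K r c) θ := by
      have h5 := (h_per (AX.K r c)).intervalIntegral_add_eq 0 (a 0)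
      rw [zero_add] at h5
      exact h5
    rw [h3, h4, ← hadd, hlst, hG0, hF0]
    simp only [G]
    ring
  -- the perimeter
  rw [hPER (n + 1) r c (fun i => a (σ.symm i)) hr hinj]
  have hvol : ∑ i, MeasureTheory.volume (AX.T r c i ∩ Set.Ico (a (σ.symm i))
      (a (σ.symm i) + 2 * Real.pi)) = ∑ k, ENNReal.ofReal (b k - a k) := by
    rw [← Equiv.sum_comp σ]
    refine Finset.sum_congr rfl fun k _ => ?_
    rw [Equiv.symm_apply_apply, hTI k, Real.volume_Icc]
  rw [hvol, ← ENNReal.ofReal_sum_of_nonneg (fun k _ => sub_nonneg.mpr (hab k)),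
    ← ENNReal.ofReal_mul hr.le, Finset.mul_sum, hsum]
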