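import Pool.Agent.Helper78.AD.CA1

set_option autoImplicit false

open scoped MeasureTheory ENNReal Topology
open Complex Filter

noncomputable section

namespace Pool.Agent.Helper78.AD

theorem e_norm (θ : ℝ) : ‖AX.e θ‖ = 1 := by
  unfold AX.e
  exact Complex.norm_exp_ofReal_mul_I θ

theorem f_cont (θ : ℝ) : Continuous (fun z : ℂ => (z * (starRingEnd ℂ) (AX.e θ)).re) :=
  Complex.continuous_re.comp (continuous_id.mul continuous_const)

theorem f_le (θ : ℝ) (z : ℂ) : |(z * (starRingEnd ℂ) (AX.e θ)).re| ≤ ‖z‖ := by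
  refine (Complex.abs_re_le_norm _).trans ?_
  rw [norm_mul, Complex.norm_conj, e_norm, mul_one]

theorem h_bdd {S : Set ℂ} (hS : IsCompact S) (θ : ℝ) :
    BddAbove ((fun z : ℂ => (z * (starRingEnd ℂ) (AX.e θ)).re) '' S) :=
  (hS.image (f_cont θ)).bddAbove

theorem le_h {S : Set ℂ} (hS : IsCompact S) (θ : ℝ) {z : ℂ} (hz : z ∈ S) :
    (z * (starRingEnd ℂ) (AX.e θ)).re ≤ AD.h S θ :=
  le_csSup (h_bdd hS θ) ⟨z, hz, rfl⟩

theorem h_att {S : Set ℂ} (hS : IsCompact S) (hn : S.Nonempty) (θ : ℝ) :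
    ∃ z ∈ S, (z * (starRingEnd ℂ) (AX.e θ)).re = AD.h S θ := by
  have h1 := (hS.image (f_cont θ)).sSup_mem (hn.image _)
  obtain ⟨z, hz, h2⟩ := h1
  exact ⟨z, hz, h2⟩

theorem h_mono {S S' : Set ℂ} (hS' : IsCompact S') (hn : S.Nonempty) (h : S ⊆ S') (θ : ℝ) :
    AD.h S θ ≤ AD.h S' θ :=
  csSup_le_csSup (h_bdd hS' θ) (hn.image _) (Set.image_mono h)

theorem abs_h_le {S : Set ℂ} (hS : IsCompact S) (hn : S.Nonempty) (θ M : ℝ)
    (hM : ∀ z ∈ S, ‖z‖ ≤ M) : |AD.h S θ| ≤ M := by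
  obtain ⟨z, hz, h1⟩ := h_att hS hn θ
  rw [← h1]
  exact (f_le θ z).trans (hM z hz)

theorem mem_K {n : ℕ} {r : ℝ} {c : Fin n → ℂ} {z : ℂ} :
    z ∈ AX.K r c ↔ ∀ i, dist z (c i) ≤ r := by
  unfold AX.K
  simp only [Set.mem_iInter, Metric.mem_closedBall]

/-- the support function of `K (r + ε) q` at `θ` tends to that of `K r q` -/
theorem h_tend {n : ℕ} (r : ℝ) (q : Fin (n + 1) → ℂ) (hn : (AX.K r q).Nonempty) (θ : ℝ)
    (ε : ℕ → ℝ) (hε0 : ∀ m, 0 ≤ ε m) (hε : Tendsto ε atTop (𝓝 0)) :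
    Tendsto (fun m => AD.h (AX.K (r + ε m) q) θ) atTop (𝓝 (AD.h (AX.K r q) θ)) := by
  have hsub : ∀ m, AX.K r q ⊆ AX.K (r + ε m) q := by
    intro m z hz
    rw [mem_K] at hz ⊢
    intro i
    have := hz i
    have := hε0 m
    linarith
  have hlow : ∀ m, AD.h (AX.K r q) θ ≤ AD.h (AX.K (r + ε m) q) θ := fun m =>
    h_mono (K_compact _ _) hn (hsub m) θ
  have hnn : ∀ m, (AX.K (r + ε m) q).Nonempty := fun m => hn.mono (hsub m)
  choose x hx hxv using fun m => h_att (K_compact (r + ε m) q) (hnn m) θ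
  -- every subsequence has a further subsequence
  refine tendsto_of_subseq_tendsto ?_
  intro ns hns
  have hεb : ∃ B, ∀ m, ε m ≤ B := by
    obtain ⟨B, hB⟩ := hε.bddAbove_range
    exact ⟨B, fun m => hB ⟨m, rfl⟩⟩
  obtain ⟨B, hB⟩ := hεb
  have hxB : ∀ m, x (ns m) ∈ AX.K (r + B) q := by
    intro m
    have h1 := hx (ns m)
    rw [mem_K] at h1 ⊢
    intro i
    have := h1 i
    have := hB (ns m)
    linarith
  obtain ⟨y, hy, φ, hφ, hlim⟩ := (K_compact (r + B) q).tendsto_subseq hxB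
  refine ⟨φ, ?_⟩
  have hεφ : Tendsto (fun k => ε (ns (φ k))) atTop (𝓝 0) :=
    hε.comp (hns.comp hφ.tendsto_atTop)
  have hyK : y ∈ AX.K r q := by
    rw [mem_K]
    intro i
    have h1 : Tendsto (fun k => dist (x (ns (φ k))) (q i)) atTop (𝓝 (dist y (q i))) :=
      hlim.dist tendsto_const_nhds
    have h2 : Tendsto (fun k => r + ε (ns (φ k))) atTop (𝓝 (r + 0)) :=
      tendsto_const_nhds.add hεφ
    have h3 := le_of_tendsto_of_tendsto' h1 h2 (fun k => (mem_K.mp (hx (ns (φ k)))) i)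
    linarith
  have hval : Tendsto (fun k => AD.h (AX.K (r + ε (ns (φ k))) q) θ) atTop
      (𝓝 ((y * (starRingEnd ℂ) (AX.e θ)).re)) := by
    have h4 : Tendsto (fun k => (x (ns (φ k)) * (starRingEnd ℂ) (AX.e θ)).re) atTop
        (𝓝 ((y * (starRingEnd ℂ) (AX.e θ)).re)) := ((f_cont θ).tendsto y).comp hlim
    refine h4.congr fun k => ?_
    exact hxv (ns (φ k))
  have h5 : (y * (starRingEnd ℂ) (AX.e θ)).re ≤ AD.h (AX.K r q) θ := le_h (K_compact _ _) θ hyK
  have h6 : AD.h (AX.K r q) θ ≤ (y * (starRingEnd ℂ) (AX.e θ)).re :=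
    ge_of_tendsto' hval fun k => hlow _
  rw [le_antisymm h6 h5]
  exact hval

end Pool.Agent.Helper78.AD

open Pool.Agent.Helper78.AD in
theorem Pool.Agent.Helper78.AD.lim_alt (hHCT : AD.ST_HCT) : AD.ST_LIM := by
  intro n r u q J hr hu hk
  have hui : ∀ i, Tendsto (fun k => u k i) atTop (𝓝 (q i)) := fun i =>
    (tendsto_pi_nhds.mp hu) i
  have hdi : ∀ i, Tendsto (fun k => dist (u k i) (q i)) atTop (𝓝 0) := by
    intro i
    have := (hui i).dist (tendsto_const_nhds (x := q i))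
    rw [dist_self] at this
    exact this
  have hev : ∀ ε > 0, ∀ᶠ k in atTop, ∀ i, dist (u k i) (q i) ≤ ε := by
    intro ε hε
    rw [Filter.eventually_all]
    intro i
    exact ((hdi i).eventually (gt_mem_nhds hε)).mono fun k hk => hk.le
  have hsub : ∀ ε k, (∀ i, dist (u k i) (q i) ≤ ε) → AX.K r (u k) ⊆ AX.K (r + ε) q := by
    intro ε k h z hz
    rw [mem_K] at hz ⊢
    intro i
    have h1 := dist_triangle z (u k i) (q i)
    have h2 := hz i
    have h3 := h i
    linarith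
  -- nonempty
  have hne : (AX.K r q).Nonempty := by
    choose x hx using fun k => (hk k).1
    obtain ⟨N, hN⟩ := (hev 1 one_pos).exists_forall_of_atTop
    have hxN : ∀ k, x (k + N) ∈ AX.K (r + 1) q := fun k =>
      hsub 1 (k + N) (hN _ (Nat.le_add_left _ _)) (hx _)
    obtain ⟨y, hy, φ, hφ, hlim⟩ := (K_compact (r + 1) q).tendsto_subseq hxN
    refine ⟨y, ?_⟩
    rw [mem_K]
    intro i
    have hsh : Tendsto (fun k => φ k + N) atTop atTop :=
      (tendsto_add_atTop_nat N).comp hφ.tendsto_atTop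
    have h1 : Tendsto (fun k => dist (x (φ k + N)) (u (φ k + N) i)) atTop
        (𝓝 (dist y (q i))) := hlim.dist ((hui i).comp hsh)
    exact le_of_tendsto' h1 fun k => mem_K.mp (hx (φ k + N)) i
  refine ⟨hne, ?_⟩
  -- the integral
  have hKc := fun (s : ℝ) => K_compact s q
  have hnn : ∀ ε, 0 ≤ ε → (AX.K (r + ε) q).Nonempty := by
    intro ε hε
    refine hne.mono ?_
    intro z hz
    rw [mem_K] at hz ⊢
    intro i
    have := hz i
    linarith
  have hJ : ∀ ε, 0 < ε → J ≤ ∫ θ in (0 : ℝ)..(2 * Real.pi), AD.h (AX.K (r + ε) q) θ := by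
    intro ε hε
    obtain ⟨k, hkk⟩ := (hev ε hε).exists
    refine (hk k).2.trans ?_
    refine intervalIntegral.integral_mono_on (by positivity)
      ((hHCT _ (K_compact _ _) (hk k).1).intervalIntegrable _ _)
      ((hHCT _ (hKc _) (hnn ε hε.le)).intervalIntegrable _ _) ?_
    intro θ _
    exact h_mono (hKc _) (hk k).1 (hsub ε k hkk) θ
  let ε : ℕ → ℝ := fun m => 1 / ((m : ℝ) + 1)
  have hε0 : ∀ m, 0 < ε m := fun m => by positivity
  have hε1 : ∀ m, ε m ≤ 1 := by
    intro m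
    simp only [ε]
    rw [div_le_one (by positivity)]
    have : (0 : ℝ) ≤ m := Nat.cast_nonneg m
    linarith
  have hεt : Tendsto ε atTop (𝓝 0) := tendsto_one_div_add_atTop_nhds_zero_nat
  have hint : Tendsto (fun m => ∫ θ in (0 : ℝ)..(2 * Real.pi), AD.h (AX.K (r + ε m) q) θ) atTop
      (𝓝 (∫ θ in (0 : ℝ)..(2 * Real.pi), AD.h (AX.K r q) θ)) := by
    refine intervalIntegral.tendsto_integral_filter_of_dominated_convergence
      (fun _ => ‖q 0‖ + (r + 1)) ?_ ?_ ?_ ?_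
    · exact Filter.Eventually.of_forall fun m =>
        (hHCT _ (hKc _) (hnn _ (hε0 m).le)).aestronglyMeasurable
    · refine Filter.Eventually.of_forall fun m => ?_
      refine Filter.Eventually.of_forall fun θ _ => ?_
      rw [Real.norm_eq_abs]
      refine abs_h_le (hKc _) (hnn _ (hε0 m).le) θ _ ?_
      intro z hz
      have h1 := mem_K.mp hz 0
      have h2 : ‖z‖ ≤ ‖z - q 0‖ + ‖q 0‖ := by
        have := norm_add_le (z - q 0) (q 0)
        rw [sub_add_cancel] at this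
        exact this
      rw [dist_eq_norm] at h1
      have h3 := hε1 m
      linarith
    · exact intervalIntegrable_const
    · refine Filter.Eventually.of_forall fun θ _ => ?_
      exact h_tend r q hne θ ε (fun m => (hε0 m).le) hεt
  exact ge_of_tendsto' hint fun m => hJ _ (hε0 m)
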